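import Pool.Graph.R_seed8.Helper743.KTFin

set_option autoImplicit false

/-! Functions of PA degree above a given function, avoiding the cones above countably many
functions which are not computable from it. -/

namespace Pool.Agent.H92.AR.PA

open Pool.Agent.Helper743
open Nat.Partrec (Code)
open Filter
open Pool.Agent.Helper743.AC (outp pre_take ev_code outp_pre pre_outp outp_p)

/-- the value plus one of the universal function within `t` steps -/
def uvv (t z : ℕ) : ℕ :=
  ((Code.evaln t (Denumerable.ofNat Code z.unpair.1) z.unpair.2).map Nat.succ).getD 0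

lemma uvv_p : Primrec₂ uvv := by
  have h1 : Primrec (fun q : ℕ × ℕ => Code.evaln q.1 (Denumerable.ofNat Code q.2.unpair.1)
      q.2.unpair.2) :=
    Code.primrec_evaln.comp ((Primrec.fst.pair ((Primrec.ofNat Code).comp (Primrec.fst.comp
      (Primrec.unpair.comp Primrec.snd)))).pair (Primrec.snd.comp
        (Primrec.unpair.comp Primrec.snd)))
  have h2 : Primrec (fun q : ℕ × ℕ => ((Code.evaln q.1 (Denumerable.ofNat Code q.2.unpair.1)
      q.2.unpair.2).map Nat.succ).getD 0) :=
    Primrec.option_getD.comp (Primrec.option_map h1 (Primrec.succ.comp Primrec.snd).to₂)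
      (Primrec.const 0)
  exact h2

lemma uvv_some {t z v : ℕ}
    (h : v ∈ Code.evaln t (Denumerable.ofNat Code z.unpair.1) z.unpair.2) : uvv t z = v + 1 := by
  unfold uvv
  rw [Option.mem_def] at h
  rw [h]; rfl

lemma uvv_ne {t z : ℕ} (h : uvv t z ≠ 0) :
    ∃ v, v ∈ Code.evaln t (Denumerable.ofNat Code z.unpair.1) z.unpair.2 ∧ uvv t z = v + 1 := by
  unfold uvv at *
  cases h1 : Code.evaln t (Denumerable.ofNat Code z.unpair.1) z.unpair.2 with
  | none => rw [h1] at h; simp at h
  | some v => exact ⟨v, rfl, rfl⟩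

/-- the string gives a wrong value of the universal function -/
def badA (τ : List ℕ) : Prop := ∃ z ∈ List.range τ.length,
  uvv τ.length z ≠ 0 ∧ ((τ[z]?).getD 0) % 2 ≠ (if uvv τ.length z = 1 then 0 else 1)

attribute [local irreducible] uvv

lemma badA_p : PrimrecPred badA := by
  have u : Primrec (fun q : ℕ × List ℕ => uvv q.2.length q.1) :=
    uvv_p.comp (Primrec.list_length.comp Primrec.snd) Primrec.fst
  have h1 : PrimrecPred (fun q : ℕ × List ℕ => uvv q.2.length q.1 ≠ 0) :=
    (Primrec.eq.comp u (Primrec.const 0)).not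
  have h2 : Primrec (fun q : ℕ × List ℕ => if uvv q.2.length q.1 = 1 then 0 else 1) :=
    Primrec.ite (Primrec.eq.comp u (Primrec.const 1)) (Primrec.const 0) (Primrec.const 1)
  have h3 : Primrec (fun q : ℕ × List ℕ => ((q.2[q.1]?).getD 0) % 2) :=
    Primrec.nat_mod.comp (Primrec.option_getD.comp (Primrec.list_getElem?.comp Primrec.snd
      Primrec.fst) (Primrec.const 0)) (Primrec.const 2)
  have h4 : PrimrecRel (fun (z : ℕ) (τ : List ℕ) => uvv τ.length z ≠ 0 ∧
      ((τ[z]?).getD 0) % 2 ≠ (if uvv τ.length z = 1 then 0 else 1)) :=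
    PrimrecPred.and h1 (Primrec.eq.comp h3 h2).not
  exact h4.exists_mem_list.comp (Primrec.list_range.comp Primrec.list_length) Primrec.id

abbrev Cs := List (ℕ × (ℕ × ℕ))

def bad (L : Cs) (τ : List ℕ) : Prop := (∃ c ∈ L, outp c.1 τ c.2.1 c.2.2) ∨ badA τ

def viol (L : Cs) (τ : List ℕ) : Prop := ∃ k ∈ List.range (τ.length + 1), bad L (τ.take k)

attribute [local irreducible] badA outp

lemma bad_p (L : Cs) : PrimrecPred (bad L) := by
  have h1 : PrimrecRel (fun (c : ℕ × (ℕ × ℕ)) (τ : List ℕ) => outp c.1 τ c.2.1 c.2.2) :=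
    outp_p.comp (((Primrec.fst.comp Primrec.fst).pair Primrec.snd).pair
      ((Primrec.fst.comp (Primrec.snd.comp Primrec.fst)).pair
        (Primrec.snd.comp (Primrec.snd.comp Primrec.fst))))
  exact PrimrecPred.or (h1.exists_mem_list.comp (Primrec.const L) Primrec.id) badA_p

attribute [local irreducible] bad

lemma viol_p (L : Cs) : PrimrecPred (viol L) := by
  have h1 : PrimrecRel (fun (k : ℕ) (τ : List ℕ) => bad L (τ.take k)) :=
    (bad_p L).comp (Primrec.list_take.comp Primrec.fst Primrec.snd)
  exact h1.exists_mem_list.comp (Primrec.list_range.comp (Primrec.succ.comp Primrec.list_length))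
    Primrec.id

attribute [local irreducible] viol

/-- all strings of zeros and ones of length `n` -/
def allB (n : ℕ) : List (List ℕ) :=
  Nat.rec [[]] (fun _ ih => ih.flatMap (fun σ => [σ ++ [0], σ ++ [1]])) n

lemma allB_p : Primrec allB := by
  have h1 : Primrec₂ (fun (_ : ℕ) (z : ℕ × List (List ℕ)) =>
      z.2.flatMap (fun σ => [σ ++ [0], σ ++ [1]])) := by
    refine Primrec.list_flatMap (Primrec.snd.comp Primrec.snd) ?_
    have s : Primrec (fun q : (ℕ × (ℕ × List (List ℕ))) × List ℕ => q.2) := Primrec.snd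
    have a := Primrec.list_concat.comp s (Primrec.const 0)
    have b := Primrec.list_concat.comp s (Primrec.const 1)
    exact Primrec.list_cons.comp a (Primrec.list_cons.comp b (Primrec.const []))
  exact Primrec.nat_rec' Primrec.id (Primrec.const [[]]) h1

lemma mem_allB {n : ℕ} {σ : List ℕ} : σ ∈ allB n ↔ σ.length = n ∧ ∀ a ∈ σ, a < 2 := by
  induction n generalizing σ with
  | zero =>
    show σ ∈ [[]] ↔ _
    rw [List.mem_singleton]
    constructor
    · rintro rfl; simp
    · rintro ⟨h, _⟩; exact List.length_eq_zero_iff.1 h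
  | succ n ih =>
    show σ ∈ (allB n).flatMap (fun σ => [σ ++ [0], σ ++ [1]]) ↔ _
    rw [List.mem_flatMap]
    constructor
    · rintro ⟨τ, h1, h2⟩
      have h3 := ih.1 h1
      simp only [List.mem_cons, List.not_mem_nil, or_false] at h2
      rcases h2 with rfl | rfl
      · refine ⟨by simp [h3.1], fun a ha => ?_⟩
        rcases List.mem_append.1 ha with ha | ha
        · exact h3.2 a ha
        · rw [List.mem_singleton] at ha; omega
      · refine ⟨by simp [h3.1], fun a ha => ?_⟩
        rcases List.mem_append.1 ha with ha | ha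
        · exact h3.2 a ha
        · rw [List.mem_singleton] at ha; omega
    · rintro ⟨h1, h2⟩
      have hne : σ ≠ [] := by rintro rfl; simp at h1
      refine ⟨σ.dropLast, ih.2 ⟨by simp [h1], fun a ha => h2 a (List.mem_of_mem_dropLast ha)⟩, ?_⟩
      have h3 := List.dropLast_append_getLast hne
      have h4 := h2 _ (List.getLast_mem hne)
      simp only [List.mem_cons, List.not_mem_nil, or_false]
      rcases Nat.lt_succ_iff_lt_or_eq.1 h4 with h5 | h5
      · left
        have h6 : σ.getLast hne = 0 := by omega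
        rw [h6] at h3; exact h3.symm
      · right
        rw [h5] at h3; exact h3.symm

def JL (π σ : List ℕ) : List ℕ :=
  (List.range π.length).map (fun i => 2 * (π[i]?).getD 0 + (σ[i]?).getD 0)

lemma JL_p : Primrec₂ JL := by
  have h1 : Primrec₂ (fun (q : List ℕ × List ℕ) (i : ℕ) =>
      2 * (q.1[i]?).getD 0 + (q.2[i]?).getD 0) := by
    have a := Primrec.option_getD.comp (Primrec.list_getElem?.comp
      (Primrec.fst.comp (Primrec.fst (α := List ℕ × List ℕ) (β := ℕ))) Primrec.snd)
      (Primrec.const 0)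
    have b := Primrec.option_getD.comp (Primrec.list_getElem?.comp
      (Primrec.snd.comp (Primrec.fst (α := List ℕ × List ℕ) (β := ℕ))) Primrec.snd)
      (Primrec.const 0)
    exact Primrec.nat_add.comp (Primrec.nat_mul.comp (Primrec.const 2) a) b
  have h2 := Primrec.list_map (Primrec.list_range.comp (Primrec.list_length.comp
    (Primrec.fst (α := List ℕ) (β := List ℕ)))) h1
  exact h2

variable (Z : ℕ → ℕ)

def J (P : ℕ → Bool) (n : ℕ) : ℕ := 2 * Z n + (P n).toNat

lemma J_mod (P : ℕ → Bool) (n : ℕ) : J Z P n % 2 = (P n).toNat := by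
  unfold J
  cases P n with
  | false => simp
  | true => simp

lemma J_div (P : ℕ → Bool) (n : ℕ) : J Z P n / 2 = Z n := by
  unfold J
  cases P n with
  | false => simp
  | true => simp; omega

/-- the class given by the constraints -/
def Cl (L : Cs) : Set (ℕ → Bool) := {P | ∀ k, ¬ bad L (pre (J Z P) k)}

lemma JL_pre (σ : List ℕ) (P : ℕ → Bool) (hP : ∀ i, i < σ.length → (σ[i]?).getD 0 = (P i).toNat) :
    JL (pre Z σ.length) σ = pre (J Z P) σ.length := by
  unfold JL pre J
  rw [List.length_map, List.length_range]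
  apply List.map_congr_left
  intro i hi
  rw [List.mem_range] at hi
  rw [hP i hi]
  simp [hi]

lemma cont_pre (k : ℕ) (S : Set (List ℕ)) :
    IsOpen {P : ℕ → Bool | pre (J Z P) k ∈ S} ∧ IsClosed {P : ℕ → Bool | pre (J Z P) k ∈ S} := by
  let F : (Fin k → Bool) → List ℕ := fun g =>
    (List.range k).map (fun i => 2 * Z i + (if h : i < k then (g ⟨i, h⟩).toNat else 0))
  have hF : ∀ P : ℕ → Bool, pre (J Z P) k = F (fun i => P i) := by
    intro P
    unfold pre J
    apply List.map_congr_left
    intro i hi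
    rw [List.mem_range] at hi
    rw [dif_pos hi]
  have hc : Continuous (fun (P : ℕ → Bool) (i : Fin k) => P i) :=
    continuous_pi (fun i => continuous_apply _)
  have he : {P : ℕ → Bool | pre (J Z P) k ∈ S} =
      (fun (P : ℕ → Bool) (i : Fin k) => P i) ⁻¹' (F ⁻¹' S) := by
    ext P
    show pre (J Z P) k ∈ S ↔ F (fun i => P i) ∈ S
    rw [hF]
  rw [he]
  exact ⟨(isOpen_discrete _).preimage hc, (isClosed_discrete _).preimage hc⟩

lemma Cl_closed (L : Cs) : IsClosed (Cl Z L) := by
  have : Cl Z L = ⋂ k, {P : ℕ → Bool | pre (J Z P) k ∈ {τ | ¬ bad L τ}} := by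
    ext P; simp [Cl]
  rw [this]
  exact isClosed_iInter (fun k => (cont_pre Z k _).2)

lemma Cl_anti {L L' : Cs} (h : ∀ c ∈ L, c ∈ L') : Cl Z L' ⊆ Cl Z L := by
  intro P hP k hb
  apply hP k
  unfold bad at *
  rcases hb with ⟨c, hc, h1⟩ | h1
  · exact Or.inl ⟨c, h c hc, h1⟩
  · exact Or.inr h1

lemma Cl_empty_bound {L : Cs} (h : ¬ (Cl Z L).Nonempty) :
    ∃ ℓ, ∀ P : ℕ → Bool, ∃ k, k ≤ ℓ ∧ bad L (pre (J Z P) k) := by
  have hcov : (Set.univ : Set (ℕ → Bool)) ⊆ ⋃ k, {P : ℕ → Bool | pre (J Z P) k ∈ {τ | bad L τ}} := by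
    intro P _
    by_contra hP
    apply h
    refine ⟨P, fun k hk => hP ?_⟩
    rw [Set.mem_iUnion]
    exact ⟨k, hk⟩
  obtain ⟨t, ht⟩ := isCompact_univ.elim_finite_subcover _ (fun k => (cont_pre Z k _).1) hcov
  refine ⟨t.sup id, fun P => ?_⟩
  have := ht (Set.mem_univ P)
  rw [Set.mem_iUnion₂] at this
  obtain ⟨k, hk, hk2⟩ := this
  exact ⟨k, Finset.le_sup (f := id) hk, hk2⟩

lemma base_nonempty : (Cl Z []).Nonempty := by
  classical
  refine ⟨fun z => decide (∃ t, 2 ≤ uvv t z), fun k hb => ?_⟩
  unfold bad at hb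
  rcases hb with ⟨c, hc, _⟩ | hb
  · simp at hc
  · unfold badA at hb
    obtain ⟨z, hz, h1, h2⟩ := hb
    rw [List.mem_range, pre_length] at hz
    apply h2
    rw [pre_getElem?, if_pos hz, Option.getD_some]
    unfold J
    beta_reduce
    have hmod : ∀ b : Bool, (2 * Z z + b.toNat) % 2 = b.toNat := by
      intro b; cases b <;> simp
    rw [hmod]
    rw [pre_length] at *
    obtain ⟨v, hv, hv1⟩ := uvv_ne h1
    by_cases h3 : uvv k z = 1
    · rw [if_pos h3]
      have h4 : ¬ ∃ t, 2 ≤ uvv t z := by
        rintro ⟨t, ht⟩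
        obtain ⟨v', hv', hv2⟩ := uvv_ne (t := t) (z := z) (by omega)
        have e1 := Code.evaln_sound hv
        have e2 := Code.evaln_sound hv'
        have := Part.mem_unique e1 e2
        omega
      rw [decide_eq_false h4]; rfl
    · rw [if_neg h3]
      have h4 : ∃ t, 2 ≤ uvv t z := ⟨k, by omega⟩
      rw [decide_eq_true h4]; rfl

variable (C : ℕ → ℕ → ℕ)

noncomputable def Ls (s : ℕ) : Cs := Nat.rec [] (fun s L =>
  open Classical in
  if h : ∃ x, (Cl Z (L ++ [(s.unpair.1, (x, C s.unpair.2 x))])).Nonempty then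
    L ++ [(s.unpair.1, (h.choose, C s.unpair.2 h.choose))] else L) s

lemma Ls_succ_pos {s : ℕ}
    (h : ∃ x, (Cl Z (Ls Z C s ++ [(s.unpair.1, (x, C s.unpair.2 x))])).Nonempty) :
    Ls Z C (s + 1) = Ls Z C s ++ [(s.unpair.1, (h.choose, C s.unpair.2 h.choose))] := by
  classical
  exact dif_pos h

lemma Ls_succ_neg {s : ℕ}
    (h : ¬ ∃ x, (Cl Z (Ls Z C s ++ [(s.unpair.1, (x, C s.unpair.2 x))])).Nonempty) :
    Ls Z C (s + 1) = Ls Z C s := by
  classical
  exact dif_neg h

lemma Ls_nonempty (s : ℕ) : (Cl Z (Ls Z C s)).Nonempty := by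
  induction s with
  | zero => exact base_nonempty Z
  | succ s ih =>
    by_cases h : ∃ x, (Cl Z (Ls Z C s ++ [(s.unpair.1, (x, C s.unpair.2 x))])).Nonempty
    · rw [Ls_succ_pos Z C h]; exact h.choose_spec
    · rw [Ls_succ_neg Z C h]; exact ih

lemma Ls_anti (s : ℕ) : Cl Z (Ls Z C (s + 1)) ⊆ Cl Z (Ls Z C s) := by
  by_cases h : ∃ x, (Cl Z (Ls Z C s ++ [(s.unpair.1, (x, C s.unpair.2 x))])).Nonempty
  · rw [Ls_succ_pos Z C h]
    exact Cl_anti Z (fun c hc => List.mem_append_left _ hc)
  · rw [Ls_succ_neg Z C h]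

lemma exists_path : ∃ P : ℕ → Bool, ∀ s, P ∈ Cl Z (Ls Z C s) := by
  have h := IsCompact.nonempty_iInter_of_sequence_nonempty_isCompact_isClosed
    (fun s => Cl Z (Ls Z C s)) (Ls_anti Z C) (Ls_nonempty Z C)
    (Cl_closed Z _).isCompact (fun s => Cl_closed Z _)
  obtain ⟨P, hP⟩ := h
  exact ⟨P, fun s => Set.mem_iInter.1 hP s⟩

def gd (L : Cs) (e : ℕ) (π : List ℕ) (x w : ℕ) : Prop :=
  ∀ σ ∈ allB π.length, viol L (JL π σ) ∨
    ∃ k ∈ List.range (π.length + 1), outp e ((JL π σ).take k) x w

noncomputable def pE (L : Cs) (e : ℕ) (π : List ℕ) (x w : ℕ) : Option ℕ :=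
  open Classical in bif decide (gd L e π x w) then some w else none

attribute [local irreducible] allB JL

lemma pE_c (L : Cs) (e : ℕ) :
    Computable (fun q : (List ℕ × ℕ) × ℕ => pE L e q.1.1 q.1.2 q.2) := by
  classical
  -- z = (σ, ((π, x), w))
  have σ : Primrec (fun z : List ℕ × ((List ℕ × ℕ) × ℕ) => z.1) := Primrec.fst
  have π : Primrec (fun z : List ℕ × ((List ℕ × ℕ) × ℕ) => z.2.1.1) :=
    Primrec.fst.comp (Primrec.fst.comp Primrec.snd)
  have h1 : PrimrecPred (fun z : List ℕ × ((List ℕ × ℕ) × ℕ) => viol L (JL z.2.1.1 z.1)) :=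
    (viol_p L).comp (JL_p.comp π σ)
  have h2 : PrimrecRel (fun (k : ℕ) (z : List ℕ × ((List ℕ × ℕ) × ℕ)) =>
      outp e ((JL z.2.1.1 z.1).take k) z.2.1.2 z.2.2) := by
    have s' : Primrec (fun y : ℕ × (List ℕ × ((List ℕ × ℕ) × ℕ)) => y.2) := Primrec.snd
    have j := JL_p.comp (π.comp s') (σ.comp s')
    have t := Primrec.list_take.comp (Primrec.fst (α := ℕ)
      (β := List ℕ × ((List ℕ × ℕ) × ℕ))) j
    exact outp_p.comp (((Primrec.const e).pair t).pair
      ((Primrec.snd.comp (Primrec.fst.comp (Primrec.snd.comp s'))).pair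
        (Primrec.snd.comp (Primrec.snd.comp s'))))
  have h3 : PrimrecPred (fun z : List ℕ × ((List ℕ × ℕ) × ℕ) =>
      ∃ k ∈ List.range (z.2.1.1.length + 1), outp e ((JL z.2.1.1 z.1).take k) z.2.1.2 z.2.2) :=
    h2.exists_mem_list.comp (Primrec.list_range.comp (Primrec.succ.comp
      (Primrec.list_length.comp π))) Primrec.id
  have h4 : PrimrecRel (fun (σ : List ℕ) (q : (List ℕ × ℕ) × ℕ) => viol L (JL q.1.1 σ) ∨
      ∃ k ∈ List.range (q.1.1.length + 1), outp e ((JL q.1.1 σ).take k) q.1.2 q.2) :=
    PrimrecPred.or h1 h3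
  have h5 : PrimrecPred (fun q : (List ℕ × ℕ) × ℕ => gd L e q.1.1 q.1.2 q.2) :=
    h4.forall_mem_list.comp (allB_p.comp (Primrec.list_length.comp
      (Primrec.fst.comp Primrec.fst))) Primrec.id
  have h6 := Primrec.cond h5.decide (Primrec.option_some.comp Primrec.snd) (Primrec.const none)
  exact h6.to_comp

lemma pre_take' (G : ℕ → ℕ) {k n : ℕ} (h : k ≤ n) : (pre G n).take k = pre G k := by
  unfold pre
  rw [← List.map_take, List.take_range, min_eq_left h]

theorem path_avoids {P : ℕ → Bool} (hP : ∀ s, P ∈ Cl Z (Ls Z C s)) (n : ℕ)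
    (hC : ¬ TR (C n) Z) : ¬ TR (C n) (J Z P) := by
  classical
  intro hTR
  obtain ⟨ev, hev, hmono, hcor⟩ := use_principle (J Z P) _ hTR
  obtain ⟨e, he⟩ := ev_code hev
  have hval : ∀ {k x y}, outp e (pre (J Z P) k) x y → y = C n x := by
    intro k x y h
    obtain ⟨j, hj⟩ := outp_pre he h
    have h1 : y ∈ ((C n : ℕ →. ℕ) x) := (hcor x y).2 ⟨j, hj⟩
    exact Part.mem_some_iff.1 h1
  set s := Nat.pair e n with hs
  by_cases h : ∃ x, (Cl Z (Ls Z C s ++ [(s.unpair.1, (x, C s.unpair.2 x))])).Nonempty
  · have h1 := hP (s + 1)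
    rw [Ls_succ_pos Z C h] at h1
    obtain ⟨j, hj⟩ := (hcor h.choose (C n h.choose)).1 (Part.mem_some _)
    obtain ⟨k, hk⟩ := (pre_outp he hj).exists
    apply h1 k
    unfold bad
    refine Or.inl ⟨_, List.mem_append_right _ (List.mem_singleton_self _), ?_⟩
    simp only [hs, Nat.unpair_pair] at hk ⊢
    exact hk
  · apply hC
    rw [hs, Nat.unpair_pair] at h
    simp only at h
    refine cert (TR.refl _) (pE (Ls Z C s) e) (pE_c _ _) _ ?_ ?_
    · intro x
      have hx : ¬ (Cl Z (Ls Z C s ++ [(e, (x, C n x))])).Nonempty := fun hne => h ⟨x, hne⟩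
      obtain ⟨ℓ, hℓ⟩ := Cl_empty_bound Z hx
      refine ⟨ℓ, C n x, ?_⟩
      unfold pE
      have hall : gd (Ls Z C s) e (pre Z ℓ) x (C n x) := by
        intro σ hσ
        rw [pre_length, mem_allB] at hσ
        obtain ⟨hl, hσ2⟩ := hσ
        subst hl
        set P' : ℕ → Bool := fun i => decide ((σ[i]?).getD 0 = 1) with hP'
        have h2 : ∀ i, i < σ.length → (σ[i]?).getD 0 = (P' i).toNat := by
          intro i hi
          rw [List.getElem?_eq_getElem hi, Option.getD_some]
          have h3 := hσ2 _ (List.getElem_mem hi)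
          simp only [hP', List.getElem?_eq_getElem hi, Option.getD_some]
          by_cases h4 : σ[i] = 1
          · rw [h4]; rfl
          · rw [decide_eq_false h4]; simp; omega
        rw [JL_pre Z σ P' h2]
        obtain ⟨k, hk, hb⟩ := hℓ P'
        unfold bad at hb
        rcases hb with ⟨c, hc, h5⟩ | h5
        · rcases List.mem_append.1 hc with hc | hc
          · left
            unfold viol
            refine ⟨k, List.mem_range.2 (by rw [pre_length]; omega), ?_⟩
            rw [pre_take' _ hk]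
            unfold bad
            exact Or.inl ⟨c, hc, h5⟩
          · right
            rw [List.mem_singleton] at hc
            subst hc
            refine ⟨k, List.mem_range.2 (by rw [pre_length]; omega), ?_⟩
            rw [pre_take' _ hk]
            exact h5
        · left
          unfold viol
          refine ⟨k, List.mem_range.2 (by rw [pre_length]; omega), ?_⟩
          rw [pre_take' _ hk]
          unfold bad
          exact Or.inr h5
      rw [decide_eq_true hall]
      rfl
    · intro x k w y hy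
      unfold pE at hy
      by_cases hall : gd (Ls Z C s) e (pre Z k) x w
      · rw [decide_eq_true hall] at hy
        have hy' : w = y := Option.some.inj hy
        subst hy'
        set σ : List ℕ := (List.range k).map (fun i => (P i).toNat) with hσ
        have hl : σ.length = k := by simp [hσ]
        have hm : σ ∈ allB (pre Z k).length := by
          rw [pre_length, mem_allB]
          refine ⟨hl, fun a ha => ?_⟩
          rw [hσ, List.mem_map] at ha
          obtain ⟨i, _, rfl⟩ := ha
          exact Bool.toNat_lt _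
        have h2 : ∀ i, i < σ.length → (σ[i]?).getD 0 = (P i).toNat := by
          intro i hi
          rw [hl] at hi
          simp [hσ, hi]
        have h3 := hall σ hm
        have h4 := JL_pre Z σ P h2
        rw [hl] at h4
        rw [h4] at h3
        rcases h3 with h3 | ⟨j, hj, h3⟩
        · exfalso
          unfold viol at h3
          obtain ⟨j, hj, h5⟩ := h3
          rw [List.mem_range, pre_length] at hj
          rw [pre_take' _ (by omega)] at h5
          exact hP s j h5
        · rw [List.mem_range, pre_length] at hj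
          rw [pre_take' _ (by omega)] at h3
          exact hval h3
      · rw [decide_eq_false hall] at hy
        simp at hy

lemma path_PA {P : ℕ → Bool} (hP : P ∈ Cl Z []) (f : ℕ →. Bool) (hf : Partrec f) :
    ∃ g : ℕ → Bool, TR (fun n => (g n).toNat) (J Z P) ∧ ∀ n b, b ∈ f n → g n = b := by
  have h1 : Nat.Partrec (fun n => (f n).map (fun b => b.toNat)) := by
    have hb : Computable (fun b : Bool => b.toNat) :=
      ((Primrec.dom_finite _).to_comp)
    exact Partrec.nat_iff.1 (hf.map (hb.comp Computable.snd).to₂)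
  obtain ⟨c, hc⟩ := Code.exists_code.1 h1
  refine ⟨fun n => P (Nat.pair (Encodable.encode c) n), ?_, ?_⟩
  · have h2 : Computable (fun z : ℕ => z % 2) :=
      (Primrec.nat_mod.comp Primrec.id (Primrec.const 2)).to_comp
    have h3 : Computable (fun n : ℕ => Nat.pair (Encodable.encode c) n) :=
      (Primrec₂.natPair.comp (Primrec.const _) Primrec.id).to_comp
    have h4 := (Computable.recT (O := {((J Z P : ℕ → ℕ) : ℕ →. ℕ)}) h2).comp
      ((TR.refl (J Z P)).comp (Computable.recT h3))
    refine Nat.RecursiveIn.of_eq h4 ?_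
    intro n
    congr 1
    exact J_mod Z P _
  · intro n b hb
    have h2 : b.toNat ∈ c.eval n := by
      rw [hc]
      exact Part.mem_map _ hb
    obtain ⟨t, ht⟩ := Code.evaln_complete.1 h2
    set z := Nat.pair (Encodable.encode c) n with hz
    set k := max t (z + 1) with hk
    have h3 := hP k
    by_contra hne
    apply h3
    unfold bad
    right
    unfold badA
    have h5 : uvv k z = b.toNat + 1 := by
      apply uvv_some
      rw [hz, Nat.unpair_pair]
      simp only
      rw [Denumerable.ofNat_encode]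
      exact Code.evaln_mono (le_max_left _ _) ht
    refine ⟨z, List.mem_range.2 (by rw [pre_length]; omega), ?_, ?_⟩
    · rw [pre_length, h5]; omega
    · rw [pre_length, h5, pre_getElem?, if_pos (by omega), Option.getD_some, J_mod]
      intro h6
      apply hne
      show P z = b
      cases b with
      | false =>
        rw [if_pos (by rfl)] at h6
        cases h7 : P z with
        | false => rfl
        | true => rw [h7] at h6; simp at h6
      | true =>
        rw [if_neg (by simp)] at h6
        cases h7 : P z with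
        | false => rw [h7] at h6; simp at h6
        | true => rfl

/-- PA degrees above `Z` avoiding countably many cones. -/
theorem exists_PA (hC : ∀ n, ¬ TR (C n) Z) : ∃ P : ℕ → Bool,
    (∀ n, ¬ TR (C n) (J Z P)) ∧ ∀ f : ℕ →. Bool, Partrec f → ∃ g : ℕ → Bool,
      TR (fun n => (g n).toNat) (J Z P) ∧ ∀ n b, b ∈ f n → g n = b := by
  obtain ⟨P, hP⟩ := exists_path Z C
  exact ⟨P, fun n => path_avoids Z C hP n (hC n), fun f hf => path_PA Z (hP 0) f hf⟩

end Pool.Agent.H92.AR.PA
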