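import Pool.Agent.H92.AR.Rel
import Pool.Agent.H92.AR.PA

set_option autoImplicit false

/-! Almost complete functions of PA degree above a given function which avoid countably many cones. -/

namespace Pool.Agent.H92.AR

open Pool.Agent.Helper743
open Nat.Partrec (Code)

/-- Above every function `Z` with values in `{0, 1}` there is an almost complete function of PA degree
which avoids the cones above countably many given functions that are not computable from `Z`. -/
theorem exists_PA_triv (Z : ℕ → ℕ) (hZ : ∀ n, Z n < 2) (C : ℕ → ℕ → ℕ)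
    (hC : ∀ n, ¬ TR (C n) Z) : ∃ G : ℕ → ℕ, TR Z G ∧ (∀ n, ¬ TR (C n) G) ∧
      (∀ f : ℕ →. Bool, Partrec f → ∃ g : ℕ → Bool,
        TR (fun n => (g n).toNat) G ∧ ∀ n b, b ∈ f n → g n = b) ∧
      ∃ c, ∀ n, KT.KG G (Encodable.encode (AC.kstr n)) ≤ KT.KG G n + c := by
  obtain ⟨P, h1, h2⟩ := PA.exists_PA Z C hC
  have hlt : ∀ n, PA.J Z P n < 4 := by
    intro n
    unfold PA.J
    have := hZ n
    have := Bool.toNat_lt (P n)
    omega
  obtain ⟨G, hG, hav, htr⟩ := exists_above (PA.J Z P) C hlt h1
  have hJ : TR (PA.J Z P) G := by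
    have h3 : Computable (fun z : ℕ => z % 4) :=
      (Primrec.nat_mod.comp Primrec.id (Primrec.const 4)).to_comp
    have h4 := (Computable.recT (O := {(G : ℕ →. ℕ)}) h3).comp (TR.refl G)
    refine Nat.RecursiveIn.of_eq h4 ?_
    intro n
    congr 1
    exact hG n
  have hZJ : TR Z (PA.J Z P) := by
    have h3 : Computable (fun z : ℕ => z / 2) :=
      (Primrec.nat_div.comp Primrec.id (Primrec.const 2)).to_comp
    have h4 := (Computable.recT (O := {((PA.J Z P : ℕ → ℕ) : ℕ →. ℕ)}) h3).comp
      (TR.refl (PA.J Z P))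
    refine Nat.RecursiveIn.of_eq h4 ?_
    intro n
    congr 1
    exact PA.J_div Z P n
  refine ⟨G, TR.trans hZJ hJ, hav, fun f hf => ?_, htr⟩
  obtain ⟨g, h3, h4⟩ := h2 f hf
  exact ⟨g, TR.trans h3 hJ, h4⟩

/-- The functions computable from `G` can be enumerated. -/
lemma enum_below (G : ℕ → ℕ) : ∃ C : ℕ → ℕ → ℕ, ∀ D : ℕ → ℕ, TR D G → ∃ n, C n = D := by
  have hcount : (Set.range (fun D : {D : ℕ → ℕ // TR D G} => D.1)).Countable := by
    have hsub : Countable {D : ℕ → ℕ // TR D G} := by
      have hch : ∀ D : {D : ℕ → ℕ // TR D G}, ∃ e, ∀ x,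
          (∃ n y, PR.evR e (pre G n) x = y + 1) ∧
          ∀ n y, PR.evR e (pre G n) x = y + 1 → y = D.1 x := by
        rintro ⟨D, hD⟩
        obtain ⟨ev, hev, hmono, hcor⟩ := use_principle G _ hD
        obtain ⟨e, he⟩ := AC.ev_code hev
        refine ⟨e, fun x => ⟨?_, ?_⟩⟩
        · obtain ⟨n, hn⟩ := (hcor x (D x)).1 (Part.mem_some _)
          refine ⟨n, D x, ?_⟩
          rw [he, hn]; simp
        · intro n y h
          rw [he] at h
          cases h3 : ev (pre G n) x with
          | none => rw [h3] at h; simp at h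
          | some v =>
            rw [h3, Encodable.encode_some] at h
            simp at h
            subst h
            have h4 : v ∈ ((D : ℕ →. ℕ) x) := (hcor x v).2 ⟨n, h3⟩
            exact Part.mem_some_iff.1 h4
      choose e he using hch
      have hinj : Function.Injective e := by
        intro D D' h
        apply Subtype.ext
        funext x
        obtain ⟨n, y, hy⟩ := (he D x).1
        have h1 := (he D x).2 n y hy
        rw [h] at hy
        have h2 := (he D' x).2 n y hy
        rw [← h1, ← h2]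
      exact hinj.countable
    exact Set.countable_range _
  have hne : (Set.range (fun D : {D : ℕ → ℕ // TR D G} => D.1)).Nonempty :=
    ⟨G, ⟨⟨G, TR.refl G⟩, rfl⟩⟩
  obtain ⟨C, hC⟩ := hcount.exists_eq_range hne
  refine ⟨C, fun D hD => ?_⟩
  have h1 : D ∈ Set.range (fun D : {D : ℕ → ℕ // TR D G} => D.1) := ⟨⟨D, hD⟩, rfl⟩
  rw [hC] at h1
  exact h1

end Pool.Agent.H92.AR
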