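import Pool.Graph.R_seed8.Helper743.KTFin

set_option autoImplicit false

/-! Almost complete functions above a given function, avoiding the cones above countably many
functions which are not computable from it. -/

namespace Pool.Agent.H92.AR

open Pool.Agent.Helper743
open Nat.Partrec (Code)
open Filter
open Pool.Agent.Helper743.PR (evT evR LS mdT mdR ev_list evR_spec)
open Pool.Agent.Helper743.AC (hl str outp conv kk wR massR cR totR MR qR al resp lst kstr
  St Sp al_iff totR_mono MR_le qR_mono tot_step lst_concat str_kstr_mono geo_le resp_lst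
  pre_take ev_code outp_pre pre_outp DL DL_p DL_encode al_p outp_p evT_evR)

lemma str_ge {n w t : ℕ} (h : w ≤ n + 1) (ht : mdR ((n + 1) ^ 2) ≤ t) : str t w = kstr w := by
  classical
  unfold str kstr
  apply List.map_congr_left
  intro p hp
  rw [List.mem_range] at hp
  have h1 : Nat.pair p p < (n + 1) ^ 2 := by
    have h5 := Nat.pair_lt_max_add_one_sq p p
    rw [max_self] at h5
    exact lt_of_lt_of_le h5 (Nat.pow_le_pow_left (by omega) 2)
  by_cases h2 : ∃ t, hl p t = true
  · rw [decide_eq_true h2]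
    exact PR.hlt'_mono ht (PR.mdR_spec _ _ h1 h2)
  · rw [decide_eq_false h2]
    push Not at h2
    have := h2 t
    simpa using this

variable (Y : ℕ → ℕ) (C : ℕ → ℕ → ℕ)

/-- the string `ρ` after `σ` codes the function `Y` modulo four -/
def cns (σ ρ : List ℕ) : Prop := ∀ j, j < ρ.length → ((ρ[j]?).getD 0) % 4 = Y (σ.length + j)

/-- splittings for the requirement `r`: functional `r.unpair.1`, target `C r.unpair.2` -/
def spl (r : ℕ) (σ : List ℕ) (d : Sp) : Prop :=
  ((al r σ d.1.1 ∧ cns Y σ d.1.1) ∧ (al r σ d.1.2 ∧ cns Y σ d.1.2)) ∧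
    (outp r.unpair.1 (σ ++ d.1.1) d.2.1 d.2.2.1 ∧ outp r.unpair.1 (σ ++ d.1.2) d.2.1 d.2.2.2) ∧
    d.2.2.1 ≠ d.2.2.2

noncomputable def pick (r : ℕ) (d : Sp) : List ℕ :=
  if d.2.2.1 = C r.unpair.2 d.2.1 then d.1.2 else d.1.1

def acts (s : ℕ) (u : St) : Prop := s.unpair.1 ∉ u.2 ∧ ∃ d, spl Y s.unpair.1 u.1 d

noncomputable def cst (τ : List ℕ) : ℕ := 4 * mdR ((τ.length + 1) ^ 2) + Y τ.length

noncomputable def corr (τ : List ℕ) : List ℕ := τ ++ [cst Y τ]

noncomputable def step (s : ℕ) (u : St) : St :=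
  open Classical in
  if h : acts Y s u then (corr Y (u.1 ++ pick C s.unpair.1 h.2.choose), s.unpair.1 :: u.2)
  else (corr Y u.1, u.2)

noncomputable def run (s : ℕ) : St := Nat.rec ([], []) (fun s u => step Y C s u) s

noncomputable def sg (s : ℕ) : List ℕ := (run Y C s).1
noncomputable def dd (s : ℕ) : List ℕ := (run Y C s).2

lemma dd_zero : dd Y C 0 = [] := rfl

noncomputable def rh (s : ℕ) : List ℕ :=
  open Classical in
  if h : acts Y s (run Y C s) then pick C s.unpair.1 h.2.choose else []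

noncomputable def ts (s : ℕ) : ℕ := cst Y (sg Y C s ++ rh Y C s)

lemma sg_succ' (s : ℕ) : sg Y C (s + 1) = sg Y C s ++ rh Y C s ++ [ts Y C s] := by
  classical
  show (step Y C s (run Y C s)).1 = (run Y C s).1 ++ rh Y C s ++ [ts Y C s]
  unfold ts step sg rh corr
  by_cases h : acts Y s (run Y C s)
  · rw [dif_pos h, dif_pos h]
  · rw [dif_neg h, dif_neg h, List.append_nil]

lemma dd_succ_pos {s : ℕ} (h : acts Y s (run Y C s)) :
    dd Y C (s + 1) = s.unpair.1 :: dd Y C s := by
  show (step Y C s (run Y C s)).2 = _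
  unfold step
  rw [dif_pos h]; rfl

lemma dd_succ_neg {s : ℕ} (h : ¬ acts Y s (run Y C s)) : dd Y C (s + 1) = dd Y C s := by
  show (step Y C s (run Y C s)).2 = _
  unfold step
  rw [dif_neg h]; rfl

lemma sg_prefix_succ (s : ℕ) : sg Y C s <+: sg Y C (s + 1) := by
  rw [sg_succ', List.append_assoc]
  exact List.prefix_append _ _

lemma sg_mono {s s' : ℕ} (h : s ≤ s') : sg Y C s <+: sg Y C s' := by
  induction s', h using Nat.le_induction with
  | base => exact List.prefix_refl _
  | succ n _ ih => exact ih.trans (sg_prefix_succ Y C n)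

lemma sg_length_succ (s : ℕ) : (sg Y C s).length < (sg Y C (s + 1)).length := by
  rw [sg_succ']; simp only [List.length_append, List.length_cons, List.length_nil]; omega

lemma sg_length (s : ℕ) : s ≤ (sg Y C s).length := by
  induction s with
  | zero => exact Nat.zero_le _
  | succ s ih => have := sg_length_succ Y C s; omega

lemma sg_long (n : ℕ) : ∃ s, n < (sg Y C s).length := ⟨n + 1, sg_length Y C (n + 1)⟩

noncomputable def GG (n : ℕ) : ℕ :=
  open Classical in ((sg Y C (Nat.find (sg_long Y C n)))[n]?).getD 0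

lemma sg_get {s n : ℕ} (h : n < (sg Y C s).length) : (sg Y C s)[n]? = some (GG Y C n) := by
  classical
  have h1 := Nat.find_spec (sg_long Y C n)
  have h2 : Nat.find (sg_long Y C n) ≤ s := Nat.find_min' _ h
  obtain ⟨ρ, hρ⟩ := sg_mono Y C h2
  have h3 : (sg Y C s)[n]? = (sg Y C (Nat.find (sg_long Y C n)))[n]? := by
    rw [← hρ, List.getElem?_append_left h1]
  rw [h3]
  unfold GG
  rw [List.getElem?_eq_getElem h1]
  rfl

lemma sg_eq_pre (s : ℕ) : sg Y C s = pre (GG Y C) (sg Y C s).length := by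
  apply List.ext_getElem?
  intro i
  rw [pre_getElem?]
  by_cases h : i < (sg Y C s).length
  · rw [if_pos h, sg_get Y C h]
  · rw [if_neg h, List.getElem?_eq_none (by omega)]

lemma rh_pos {s : ℕ} (h : acts Y s (run Y C s)) : ∃ d : Sp, spl Y s.unpair.1 (sg Y C s) d ∧
    rh Y C s = pick C s.unpair.1 d := by
  classical
  refine ⟨h.2.choose, h.2.choose_spec, ?_⟩
  unfold rh
  rw [dif_pos h]

lemma rh_neg {s : ℕ} (h : ¬ acts Y s (run Y C s)) : rh Y C s = [] := by
  unfold rh
  rw [dif_neg h]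

lemma rh_al {s : ℕ} (h : acts Y s (run Y C s)) : al s.unpair.1 (sg Y C s) (rh Y C s) := by
  obtain ⟨d, hd, he⟩ := rh_pos Y C h
  rw [he]
  unfold pick
  split_ifs
  · exact hd.1.2.1
  · exact hd.1.1.1

lemma rh_cns (s : ℕ) : cns Y (sg Y C s) (rh Y C s) := by
  by_cases h : acts Y s (run Y C s)
  · obtain ⟨d, hd, he⟩ := rh_pos Y C h
    rw [he]
    unfold pick
    split_ifs
    · exact hd.1.2.2
    · exact hd.1.1.2
  · rw [rh_neg Y C h]
    intro j hj
    simp at hj

lemma rh_out {s : ℕ} (h : acts Y s (run Y C s)) : ∃ x y,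
    outp s.unpair.1.unpair.1 (sg Y C s ++ rh Y C s) x y ∧ y ≠ C s.unpair.1.unpair.2 x := by
  obtain ⟨d, hd, he⟩ := rh_pos Y C h
  rw [he]
  unfold pick
  by_cases h1 : d.2.2.1 = C s.unpair.1.unpair.2 d.2.1
  · rw [if_pos h1]
    exact ⟨d.2.1, d.2.2.2, hd.2.1.2, fun h2 => hd.2.2 (by rw [h1, h2])⟩
  · rw [if_neg h1]
    exact ⟨d.2.1, d.2.2.1, hd.2.1.1, h1⟩

lemma rh_resp (s : ℕ) : resp (sg Y C s) (rh Y C s) := by
  by_cases h : acts Y s (run Y C s)
  · exact (rh_al Y C h).1
  · rw [rh_neg Y C h]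
    intro t ht
    simp at ht

lemma str_ts (s w : ℕ) (h : w ≤ (sg Y C s ++ rh Y C s).length + 1) :
    str (ts Y C s) w = kstr w :=
  str_ge h (by unfold ts cst; omega)

lemma sg_corr (s : ℕ) : str (lst (sg Y C s)) (sg Y C s).length = kstr (sg Y C s).length := by
  cases s with
  | zero => rfl
  | succ s =>
    rw [sg_succ', lst_concat]
    apply str_ts
    simp only [List.length_append, List.length_cons, List.length_nil]
    omega

lemma ts_corr (s : ℕ) : str (ts Y C s) (sg Y C s).length =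
    str (lst (sg Y C s)) (sg Y C s).length := by
  rw [sg_corr]
  apply str_ts
  simp; omega

lemma ext_resp {s : ℕ} {t : ℕ} (h : t ∈ rh Y C s ++ [ts Y C s]) :
    str t (sg Y C s).length = kstr (sg Y C s).length := by
  rcases List.mem_append.1 h with h | h
  · have h1 := rh_resp Y C s
    unfold resp at h1
    rw [h1 t h, sg_corr]
  · rw [List.mem_singleton] at h
    subst h
    rw [ts_corr, sg_corr]

lemma entry {s n : ℕ} (h : (sg Y C s).length ≤ n) : ∃ u, s ≤ u ∧ (sg Y C u).length ≤ n ∧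
    n < (sg Y C (u + 1)).length ∧ GG Y C n ∈ rh Y C u ++ [ts Y C u] := by
  classical
  have h1 := Nat.find_spec (sg_long Y C n)
  have h2 : s < Nat.find (sg_long Y C n) := by
    by_contra hle
    push Not at hle
    have := (sg_mono Y C hle).length_le
    omega
  obtain ⟨u, hu⟩ : ∃ u, Nat.find (sg_long Y C n) = u + 1 :=
    ⟨Nat.find (sg_long Y C n) - 1, by omega⟩
  have h3 : (sg Y C u).length ≤ n := by
    have := Nat.find_min (sg_long Y C n) (m := u) (by omega)
    omega
  rw [hu] at h1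
  refine ⟨u, by omega, h3, h1, ?_⟩
  have h5 := sg_get Y C h1
  rw [sg_succ', List.append_assoc, List.getElem?_append_right h3] at h5
  exact List.mem_of_getElem? h5

variable {Y} in
lemma sg_cns (hY : ∀ n, Y n < 4) (s : ℕ) : ∀ n, n < (sg Y C s).length →
    (((sg Y C s)[n]?).getD 0) % 4 = Y n := by
  induction s with
  | zero => intro n hn; exact absurd hn (Nat.not_lt_zero n)
  | succ s ih =>
    intro n hn
    rw [sg_succ'] at hn ⊢
    by_cases h1 : n < (sg Y C s).length
    · rw [List.append_assoc, List.getElem?_append_left h1]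
      exact ih n h1
    · push Not at h1
      by_cases h2 : n < (sg Y C s ++ rh Y C s).length
      · rw [List.getElem?_append_left h2, List.getElem?_append_right h1]
        rw [List.length_append] at h2
        have h3 := rh_cns Y C s (n - (sg Y C s).length) (by omega)
        rw [h3]
        congr 1
        omega
      · push Not at h2
        have h4 : n = (sg Y C s ++ rh Y C s).length := by
          simp only [List.length_append, List.length_cons, List.length_nil] at hn h2 ⊢
          omega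
        subst h4
        rw [List.getElem?_append_right (le_refl _)]
        simp only [Nat.sub_self, List.getElem?_cons_zero, Option.getD_some]
        unfold ts cst
        have := hY (sg Y C s ++ rh Y C s).length
        omega

variable {Y} in
lemma GG_mod (hY : ∀ n, Y n < 4) (n : ℕ) : GG Y C n % 4 = Y n := by
  obtain ⟨s, hs⟩ := sg_long Y C n
  have h1 := sg_cns C hY s n hs
  rw [sg_get Y C hs] at h1
  exact h1

lemma GG_resp {s n : ℕ} (h : (sg Y C s).length ≤ n) :
    str (GG Y C n) (sg Y C s).length = kstr (sg Y C s).length := by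
  obtain ⟨u, h1, h2, h3, h4⟩ := entry Y C h
  exact str_kstr_mono (sg_mono Y C h1).length_le (ext_resp Y C h4)

variable {Y} in
lemma pre_split (hY : ∀ n, Y n < 4) {s n : ℕ} (h : (sg Y C s).length ≤ n) :
    ∃ ρ, pre (GG Y C) n = sg Y C s ++ ρ ∧
    resp (sg Y C s) ρ ∧ cns Y (sg Y C s) ρ := by
  obtain ⟨ρ, hρ⟩ := pre_prefix (GG Y C) h
  rw [← sg_eq_pre] at hρ
  refine ⟨ρ, hρ.symm, fun m hm => ?_, fun j hj => ?_⟩
  · obtain ⟨i, hi⟩ := List.mem_iff_getElem?.1 hm
    have h1 : (pre (GG Y C) n)[(sg Y C s).length + i]? = some m := by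
      rw [← hρ, List.getElem?_append_right (by omega), Nat.add_sub_cancel_left, hi]
    rw [pre_getElem?] at h1
    by_cases h2 : (sg Y C s).length + i < n
    · rw [if_pos h2] at h1
      rw [← Option.some.inj h1, sg_corr]
      exact GG_resp Y C (Nat.le_add_right _ _)
    · rw [if_neg h2] at h1; simp at h1
  · have h1 : (pre (GG Y C) n)[(sg Y C s).length + j]? = ρ[j]? := by
      rw [← hρ, List.getElem?_append_right (by omega), Nat.add_sub_cancel_left]
    have h2 : (sg Y C s).length + j < n := by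
      have := congrArg List.length hρ
      rw [List.length_append, pre_length] at this
      omega
    rw [← h1, pre_getElem?, if_pos h2]
    exact GG_mod C hY _

lemma dd_mono {s s' : ℕ} (h : s ≤ s') : ∀ e ∈ dd Y C s, e ∈ dd Y C s' := by
  induction s', h using Nat.le_induction with
  | base => exact fun e h => h
  | succ n _ ih =>
    intro e he
    by_cases h1 : acts Y n (run Y C n)
    · rw [dd_succ_pos Y C h1]; exact List.mem_cons_of_mem _ (ih e he)
    · rw [dd_succ_neg Y C h1]; exact ih e he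

lemma dd_mem {s e : ℕ} (h : e ∈ dd Y C s) : ∃ s', acts Y s' (run Y C s') ∧ s'.unpair.1 = e := by
  induction s with
  | zero => rw [dd_zero] at h; simp at h
  | succ s ih =>
    by_cases h1 : acts Y s (run Y C s)
    · rw [dd_succ_pos Y C h1, List.mem_cons] at h
      rcases h with h | h
      · exact ⟨s, h1, h.symm⟩
      · exact ih h
    · rw [dd_succ_neg Y C h1] at h; exact ih h

lemma acts_once (e : ℕ) : ∀ᶠ s in atTop, ¬ (acts Y s (run Y C s) ∧ s.unpair.1 = e) := by
  by_cases h : ∃ s, acts Y s (run Y C s) ∧ s.unpair.1 = e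
  · obtain ⟨s, h1, h2⟩ := h
    filter_upwards [eventually_gt_atTop s] with s' hs'
    rintro ⟨h3, h4⟩
    apply h3.1
    rw [h4, ← h2]
    apply dd_mono Y C hs'
    rw [dd_succ_pos Y C h1]
    exact List.mem_cons_self
  · push Not at h
    exact Eventually.of_forall (fun s hs => h s hs.1 hs.2)

lemma acts_late (i : ℕ) : ∃ s0, ∀ s, s0 ≤ s → acts Y s (run Y C s) → i ≤ s.unpair.1 := by
  have h := ev_list (L := List.range i)
    (P := fun s e => ¬ (acts Y s (run Y C s) ∧ s.unpair.1 = e)) (fun e _ => acts_once Y C e)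
  obtain ⟨s0, h0⟩ := eventually_atTop.1 h
  refine ⟨s0, fun s hs hact => ?_⟩
  by_contra hlt
  push Not at hlt
  exact h0 s hs s.unpair.1 (List.mem_range.2 hlt) ⟨hact, rfl⟩

lemma tot_acts {i s : ℕ} (h : acts Y s (run Y C s)) (hi : i ≤ s.unpair.1) :
    totR i (sg Y C (s + 1)) ≤ totR i (sg Y C s) + (1 / 2) ^ s.unpair.1 := by
  have h1 := (al_iff.1 (rh_al Y C h)).2 i hi
  have h2 := tot_step (i := i) (rh_resp Y C s) (ts_corr Y C s)
  rw [sg_succ']
  linarith

lemma tot_nacts {i s : ℕ} (h : ¬ acts Y s (run Y C s)) :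
    totR i (sg Y C (s + 1)) ≤ totR i (sg Y C s) := by
  have h2 := tot_step (i := i) (rh_resp Y C s) (ts_corr Y C s)
  rw [sg_succ']
  rw [rh_neg Y C h, List.append_nil] at h2 ⊢
  linarith

lemma tot_late {i s0 : ℕ} (h0 : ∀ s, s0 ≤ s → acts Y s (run Y C s) → i ≤ s.unpair.1) (s : ℕ)
    (hs : s0 ≤ s) : totR i (sg Y C s) ≤ totR i (sg Y C s0) +
      ∑ e ∈ (dd Y C s).toFinset, ((1 : ℝ) / 2) ^ e := by
  induction s, hs using Nat.le_induction with
  | base =>
    have : 0 ≤ ∑ e ∈ (dd Y C s0).toFinset, ((1 : ℝ) / 2) ^ e :=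
      Finset.sum_nonneg (fun e _ => by positivity)
    linarith
  | succ s hs ih =>
    by_cases h1 : acts Y s (run Y C s)
    · rw [dd_succ_pos Y C h1, List.toFinset_cons, Finset.sum_insert (by
        rw [List.mem_toFinset]; exact h1.1)]
      have := tot_acts Y C h1 (h0 s hs h1)
      linarith
    · rw [dd_succ_neg Y C h1]
      have := tot_nacts Y C (i := i) h1
      linarith

lemma tot_bdd (i : ℕ) : ∃ B : ℝ, ∀ n, totR i (pre (GG Y C) n) ≤ B := by
  obtain ⟨s0, h0⟩ := acts_late Y C i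
  refine ⟨totR i (sg Y C s0) + 2, fun n => ?_⟩
  have h1 : pre (GG Y C) n <+: sg Y C (max n s0) := by
    rw [sg_eq_pre]
    exact pre_prefix _ (le_trans (le_max_left _ _) (sg_length Y C (max n s0)))
  have h2 := totR_mono (i := i) h1
  have h3 := tot_late Y C h0 (max n s0) (le_max_right _ _)
  have h4 := geo_le (dd Y C (max n s0)).toFinset
  linarith

lemma q_tail (i : ℕ) {ε : ℝ} (hε : 0 < ε) : ∃ N, ∀ m n, N ≤ m → m ≤ n →
    qR i (pre (GG Y C) n) ≤ qR i (pre (GG Y C) m) + ε := by
  obtain ⟨B, hB⟩ := tot_bdd Y C i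
  have hb : BddAbove (Set.range (fun n => qR i (pre (GG Y C) n))) := by
    refine ⟨B + 1, ?_⟩
    rintro _ ⟨n, rfl⟩
    exact add_le_add (hB n) (MR_le _ _)
  obtain ⟨N, hN⟩ := exists_lt_of_lt_ciSup (f := fun n => qR i (pre (GG Y C) n))
    (show (⨆ n, qR i (pre (GG Y C) n)) - ε < ⨆ n, qR i (pre (GG Y C) n) by linarith)
  refine ⟨N, fun m n hm _ => ?_⟩
  have h1 := le_ciSup hb n
  have h2 := qR_mono (i := i) (pre_prefix (GG Y C) hm)
  linarith

lemma q_tails (e : ℕ) : ∃ N, ∀ m n, N ≤ m → m ≤ n → ∀ i, i ≤ e →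
    qR i (pre (GG Y C) n) ≤ qR i (pre (GG Y C) m) + (1 / 2) ^ e := by
  have hε : (0 : ℝ) < (1 / 2) ^ e := by positivity
  choose f hf using fun i => q_tail Y C i hε
  refine ⟨(Finset.range (e + 1)).sup f, fun m n hm hmn i hi => ?_⟩
  apply hf i m n _ hmn
  refine le_trans ?_ hm
  exact Finset.le_sup (f := f) (Finset.mem_range.2 (by omega))

/-- computable test of `cns`, given a prefix `π` of `Y` -/
def chk (σ ρ π : List ℕ) : Prop :=
  ∀ j ∈ List.range ρ.length, ((ρ[j]?).getD 0) % 4 = (π[σ.length + j]?).getD 4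

lemma chk_p : PrimrecPred (fun q : (List ℕ × List ℕ) × List ℕ => chk q.1.1 q.1.2 q.2) := by
  have r : Primrec (fun z : ℕ × ((List ℕ × List ℕ) × List ℕ) => z.2.1.2) :=
    Primrec.snd.comp (Primrec.fst.comp Primrec.snd)
  have s : Primrec (fun z : ℕ × ((List ℕ × List ℕ) × List ℕ) => z.2.1.1) :=
    Primrec.fst.comp (Primrec.fst.comp Primrec.snd)
  have p : Primrec (fun z : ℕ × ((List ℕ × List ℕ) × List ℕ) => z.2.2) :=
    Primrec.snd.comp Primrec.snd
  have a1 := Primrec.nat_mod.comp (Primrec.option_getD.comp (Primrec.list_getElem?.comp r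
    Primrec.fst) (Primrec.const 0)) (Primrec.const 4)
  have a2 := Primrec.option_getD.comp (Primrec.list_getElem?.comp p
    (Primrec.nat_add.comp (Primrec.list_length.comp s) Primrec.fst)) (Primrec.const 4)
  have h1 : PrimrecRel (fun (j : ℕ) (q : (List ℕ × List ℕ) × List ℕ) =>
      ((q.1.2[j]?).getD 0) % 4 = (q.2[q.1.1.length + j]?).getD 4) := Primrec.eq.comp a1 a2
  exact h1.forall_mem_list.comp (Primrec.list_range.comp (Primrec.list_length.comp
    (Primrec.snd.comp Primrec.fst))) Primrec.id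

variable {Y} in
lemma chk_cns {σ ρ : List ℕ} {k : ℕ} (h : chk σ ρ (pre Y k)) : cns Y σ ρ := by
  intro j hj
  rw [h j (List.mem_range.2 hj), pre_getElem?]
  have h1 := h j (List.mem_range.2 hj)
  rw [pre_getElem?] at h1
  split_ifs with h2
  · rfl
  · rw [if_neg h2] at h1
    simp only [Option.getD_none] at h1
    have := Nat.mod_lt ((ρ[j]?).getD 0) (show 0 < 4 by norm_num)
    omega

variable {Y} in
lemma cns_chk {σ ρ : List ℕ} (h : cns Y σ ρ) : chk σ ρ (pre Y (σ.length + ρ.length)) := by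
  intro j hj
  rw [List.mem_range] at hj
  rw [h j hj, pre_getElem?, if_pos (by omega)]
  rfl

attribute [local irreducible] DL al outp chk

noncomputable def pF (r : ℕ) (σ : List ℕ) (π : List ℕ) (q w : ℕ) : Option ℕ :=
  open Classical in
  bif (decide (al r σ (DL w).1) && decide (outp r.unpair.1 (σ ++ (DL w).1) q (DL w).2)) &&
    decide (chk σ (DL w).1 π)
  then some (DL w).2 else none

lemma pF_c (r : ℕ) (σ : List ℕ) :
    Computable (fun q : (List ℕ × ℕ) × ℕ => pF r σ q.1.1 q.1.2 q.2) := by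
  classical
  have w : Primrec (fun q : (List ℕ × ℕ) × ℕ => DL q.2) := DL_p.comp Primrec.snd
  have x : Primrec (fun q : (List ℕ × ℕ) × ℕ => q.1.2) := Primrec.snd.comp Primrec.fst
  have p : Primrec (fun q : (List ℕ × ℕ) × ℕ => q.1.1) := Primrec.fst.comp Primrec.fst
  have h1 := al_p.comp (((Primrec.const r).pair (Primrec.const σ)).pair (Primrec.fst.comp w))
  have h2 := outp_p.comp (((Primrec.const r.unpair.1).pair (Primrec.list_append.comp
    (Primrec.const σ) (Primrec.fst.comp w))).pair (x.pair (Primrec.snd.comp w)))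
  have h4 := chk_p.comp (((Primrec.const σ).pair (Primrec.fst.comp w)).pair p)
  have h3 := Primrec.cond (Primrec.and.comp (Primrec.and.comp h1.decide h2.decide) h4.decide)
    (Primrec.option_some.comp (Primrec.snd.comp w)) (Primrec.const none)
  exact h3.to_comp

variable {Y} in
theorem avoids (hY : ∀ n, Y n < 4) (n : ℕ) (hC : ¬ TR (C n) Y) : ¬ TR (C n) (GG Y C) := by
  classical
  intro hTR
  obtain ⟨ev, hev, hmono, hcor⟩ := use_principle (GG Y C) _ hTR
  obtain ⟨e, he⟩ := ev_code hev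
  set r := Nat.pair e n with hr
  have hr1 : r.unpair.1 = e := by rw [hr, Nat.unpair_pair]
  have hr2 : r.unpair.2 = n := by rw [hr, Nat.unpair_pair]
  have hval : ∀ {k x y}, outp e (pre (GG Y C) k) x y → y = C n x := by
    intro k x y h
    obtain ⟨j, hj⟩ := outp_pre he h
    have h1 : y ∈ ((C n : ℕ →. ℕ) x) := (hcor x y).2 ⟨j, hj⟩
    exact Part.mem_some_iff.1 h1
  have hnever : ∀ s, ¬ (acts Y s (run Y C s) ∧ s.unpair.1 = r) := by
    rintro s ⟨h1, h2⟩
    obtain ⟨x, y, h3, h4⟩ := rh_out Y C h1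
    rw [h2, hr1] at h3
    rw [h2, hr2] at h4
    have h5 : sg Y C s ++ rh Y C s = pre (GG Y C) (sg Y C s ++ rh Y C s).length := by
      have h6 := sg_succ' Y C s
      have h7 := sg_eq_pre Y C (s + 1)
      have h8 : (sg Y C s ++ rh Y C s).length ≤ (sg Y C (s + 1)).length := by
        rw [h6]; simp
      rw [← pre_take (GG Y C) h8, ← h7, h6]
      exact (List.take_left' rfl).symm
    rw [h5] at h3
    exact h4 (hval h3)
  obtain ⟨N, hN⟩ := q_tails Y C r
  set s := Nat.pair r N with hs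
  have hs1 : s.unpair.1 = r := by rw [hs, Nat.unpair_pair]
  have hs2 : N ≤ (sg Y C s).length := le_trans (Nat.right_le_pair r N) (sg_length Y C s)
  have hnosplit : ∀ d : Sp, ¬ spl Y r (sg Y C s) d := by
    intro d hd
    apply hnever s
    refine ⟨⟨?_, d, ?_⟩, hs1⟩
    · intro hmem
      obtain ⟨s', h1, h2⟩ := dd_mem Y C (s := s) hmem
      exact hnever s' ⟨h1, by rw [h2, hs1]⟩
    · rw [hs1]; exact hd
  have hex : ∀ q, ∀ᶠ k in atTop, ∃ ρ, pre (GG Y C) k = sg Y C s ++ ρ ∧
      (al r (sg Y C s) ρ ∧ cns Y (sg Y C s) ρ) ∧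
      outp e (sg Y C s ++ ρ) q (C n q) := by
    intro q
    obtain ⟨j, hj⟩ := (hcor q (C n q)).1 (Part.mem_some _)
    filter_upwards [pre_outp he hj, eventually_ge_atTop (sg Y C s).length] with k h1 h2
    obtain ⟨ρ, hρ, hr, hcn⟩ := pre_split C hY h2
    refine ⟨ρ, hρ, ⟨?_, hcn⟩, by rw [← hρ]; exact h1⟩
    rw [al_iff]
    refine ⟨hr, fun i hi => ?_⟩
    have h3 := hN (sg Y C s).length k hs2 h2 i hi
    rw [← sg_eq_pre, hρ] at h3
    exact h3
  apply hC
  refine cert (TR.refl _) (pF r (sg Y C s)) (pF_c _ _) _ ?_ ?_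
  · intro q
    obtain ⟨k, ρ, _, h1, h2⟩ := (hex q).exists
    refine ⟨(sg Y C s).length + ρ.length, Encodable.encode (ρ, C n q), ?_⟩
    unfold pF
    rw [DL_encode, hr1]
    simp only
    rw [decide_eq_true h1.1, decide_eq_true h2, decide_eq_true (cns_chk h1.2)]
    rfl
  · intro q k w y hy
    unfold pF at hy
    rw [hr1] at hy
    by_cases h1 : al r (sg Y C s) (DL w).1
    · by_cases h2 : outp e (sg Y C s ++ (DL w).1) q (DL w).2
      · by_cases h5 : chk (sg Y C s) (DL w).1 (pre Y k)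
        · rw [decide_eq_true h1, decide_eq_true h2, decide_eq_true h5] at hy
          have hy' := Option.some.inj hy
          rw [← hy']
          by_contra hne
          obtain ⟨n', ρ, _, h3, h4⟩ := (hex q).exists
          refine hnosplit (((DL w).1, ρ), (q, ((DL w).2, C n q)))
            ⟨⟨⟨h1, chk_cns h5⟩, h3⟩, ?_, hne⟩
          rw [hr1]
          exact ⟨h2, h4⟩
        · rw [decide_eq_false h5, Bool.and_false] at hy
          simp at hy
      · rw [decide_eq_false h2, Bool.and_false, Bool.false_and] at hy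
        simp at hy
    · rw [decide_eq_false h1, Bool.false_and, Bool.false_and] at hy
      simp at hy

lemma GG_lim (n : ℕ) : ∀ᶠ N in atTop, str (GG Y C N) n = kstr n := by
  filter_upwards [eventually_ge_atTop (sg Y C n).length] with N hN
  exact str_kstr_mono (sg_length Y C n) (GG_resp Y C hN)

lemma str_len (t w : ℕ) : (str t w).length = w := by unfold str; simp

lemma halting_triv : ∃ c, ∀ n, KT.KG (GG Y C) (Encodable.encode (kstr n)) ≤
    KT.KG (GG Y C) n + c := by
  apply KT.triv_KG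
  intro f φ h1 h2 h3
  refine KT.trivial_rel str (GG Y C) AC.str_p str_len ?_ kstr (GG_lim Y C) f φ h1 h2 h3
  intro i
  obtain ⟨B, hB⟩ := tot_bdd Y C i
  exact ⟨B, fun n => hB n⟩

/-- Almost complete functions above `Y` which avoid countably many cones. -/
theorem exists_above (hY : ∀ n, Y n < 4) (hC : ∀ n, ¬ TR (C n) Y) :
    ∃ G : ℕ → ℕ, (∀ n, G n % 4 = Y n) ∧ (∀ n, ¬ TR (C n) G) ∧
      ∃ c, ∀ n, KT.KG G (Encodable.encode (kstr n)) ≤ KT.KG G n + c :=
  ⟨GG Y C, GG_mod C hY, fun n => avoids C hY n (hC n), halting_triv Y C⟩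

end Pool.Agent.H92.AR
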